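import Pool.Graph.R_pool_sql_team_seeded_b0a926ef.R466.OM.Main

/-!
Formulas and the shrinking lemma.
-/

set_option autoImplicit false

namespace Pool.Agent.KS6_90.CFO

open FirstOrder FirstOrder.Language FirstOrder.Language.Structure Cardinal Pool.Agent.R466.OM

universe u w

variable {L : FirstOrder.Language.{0, 0}} (lt : L.Relations 2) (add : L.Functions 2)

/-- the value of the function symbol `add` -/
def ad (N : Type u) [L.Structure N] (x y : N) : N := funMap add ![x, y]

/-- `add` is a group operation on `N` whose left and right translations are increasing -/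
structure OrdGroup (N : Type u) [L.Structure N] : Prop where
  assoc : ∀ x y z : N, ad add N (ad add N x y) z = ad add N x (ad add N y z)
  neutral : ∃ z : N, ∀ x, ad add N z x = x ∧ ad add N x z = x ∧
    ∃ y, ad add N x y = z ∧ ad add N y x = z
  mono : ∀ x y w : N, Lt lt N x y → Lt lt N (ad add N x w) (ad add N y w) ∧
    Lt lt N (ad add N w x) (ad add N w y)

section formulas

variable {α : Type w}

/-- `s < t` -/
def lf (s t : L.Term α) : L.Formula α := lt.formula₂ s t

theorem realize_lf {N : Type u} [L.Structure N] (s t : L.Term α) (e : α → N) :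
    (lf lt s t).Realize e ↔ Lt lt N (s.realize e) (t.realize e) := Formula.realize_rel₂

/-- the graph of the partial function defined by `ψ` -/
def Gr {N : Type u} [L.Structure N] (e : α → N) (ψ : L.Formula (α ⊕ Fin 2)) (x y : N) : Prop :=
  ψ.Realize (Sum.elim e ![x, y]) ∧ ∀ y', ψ.Realize (Sum.elim e ![x, y']) → y' = y

/-- the formula for `Gr` -/
noncomputable def Gf (ψ : L.Formula (α ⊕ Fin 2)) : L.Formula (α ⊕ Fin 2) :=
  ψ ⊓ ((((ψ.relabel (Sum.elim (fun a => Sum.inl (Sum.inl a))
    ![Sum.inl (Sum.inr 0), Sum.inr 0]) : L.Formula ((α ⊕ Fin 2) ⊕ Fin 1)).imp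
    (Term.equal (Term.var (Sum.inr 0)) (Term.var (Sum.inl (Sum.inr 1)))) :
      L.Formula ((α ⊕ Fin 2) ⊕ Fin 1))).iAlls (Fin 1))

theorem realize_Gf {N : Type u} [L.Structure N] (e : α → N) (ψ : L.Formula (α ⊕ Fin 2))
    (v : Fin 2 → N) : (Gf ψ).Realize (Sum.elim e v) ↔ Gr e ψ (v 0) (v 1) := by
  have hv : v = ![v 0, v 1] := by
    funext i; fin_cases i <;> rfl
  rw [Gf, Formula.realize_inf, Formula.realize_iAlls, Gr, ← hv]
  refine and_congr Iff.rfl ?_
  constructor
  · intro h y' hy'
    have h1 := h (fun _ => y')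
    rw [Formula.realize_imp, Formula.realize_relabel, Formula.realize_equal] at h1
    refine h1 ?_
    convert hy' using 1
    funext i
    rcases i with i | i
    · rfl
    · fin_cases i <;> rfl
  · intro h i
    rw [Formula.realize_imp, Formula.realize_relabel, Formula.realize_equal]
    intro h1
    refine h (i 0) ?_
    convert h1 using 1
    funext j
    rcases j with j | j
    · rfl
    · fin_cases j <;> rfl

/-- on the interval `(a, b)` the partial function is the identity or leaves the interval -/
def Off {N : Type u} [L.Structure N] (e : α → N) (ψ : L.Formula (α ⊕ Fin 2)) (a b : N) : Prop :=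
  ∀ x y, Lt lt N a x → Lt lt N x b → Gr e ψ x y → y = x ∨ ¬ Lt lt N a y ∨ ¬ Lt lt N y b

/-- the formula `a < v 0 < v 1 < b` and `Off` on `(v 0, v 1)` -/
noncomputable def Xi (ψ : L.Formula (α ⊕ Fin 2)) (a b : α) : L.Formula (α ⊕ Fin 2) :=
  (lf lt (Term.var (Sum.inl a)) (Term.var (Sum.inr 0)) ⊓
    (lf lt (Term.var (Sum.inr 0)) (Term.var (Sum.inr 1)) ⊓
      lf lt (Term.var (Sum.inr 1)) (Term.var (Sum.inl b)))) ⊓
  ((((lf lt (Term.var (Sum.inl (Sum.inr 0))) (Term.var (Sum.inr 0)) ⊓
    (lf lt (Term.var (Sum.inr 0)) (Term.var (Sum.inl (Sum.inr 1))) ⊓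
      (Gf ψ).relabel (Sum.elim (fun a => Sum.inl (Sum.inl a)) Sum.inr))).imp
    ((Term.equal (Term.var (Sum.inr 1)) (Term.var (Sum.inr 0))) ⊔
      ((lf lt (Term.var (Sum.inl (Sum.inr 0))) (Term.var (Sum.inr 1))).not ⊔
        (lf lt (Term.var (Sum.inr 1)) (Term.var (Sum.inl (Sum.inr 1)))).not)) :
      L.Formula ((α ⊕ Fin 2) ⊕ Fin 2))).iAlls (Fin 2))

theorem realize_Xi {N : Type u} [L.Structure N] (e : α → N) (ψ : L.Formula (α ⊕ Fin 2)) (a b : α)
    (v : Fin 2 → N) : (Xi lt ψ a b).Realize (Sum.elim e v) ↔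
      (Lt lt N (e a) (v 0) ∧ Lt lt N (v 0) (v 1) ∧ Lt lt N (v 1) (e b)) ∧
        Off lt e ψ (v 0) (v 1) := by
  rw [Xi, Formula.realize_inf, Formula.realize_iAlls, Formula.realize_inf, Formula.realize_inf,
    realize_lf, realize_lf, realize_lf]
  refine and_congr Iff.rfl ?_
  have key : ∀ i : Fin 2 → N, ((Gf ψ).relabel (Sum.elim (fun a => Sum.inl (Sum.inl a)) Sum.inr) :
      L.Formula ((α ⊕ Fin 2) ⊕ Fin 2)).Realize (fun a => Sum.elim (Sum.elim e v) i a) ↔
        Gr e ψ (i 0) (i 1) := by
    intro i
    rw [Formula.realize_relabel, ← realize_Gf]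
    apply iff_of_eq
    congr 1
    funext j
    rcases j with j | j <;> rfl
  constructor
  · intro h x y h1 h2 h3
    have h4 := h ![x, y]
    rw [Formula.realize_imp, Formula.realize_inf, Formula.realize_inf, Formula.realize_sup,
      Formula.realize_sup, Formula.realize_not, Formula.realize_not, Formula.realize_equal,
      realize_lf, realize_lf, realize_lf, realize_lf, key] at h4
    exact h4 ⟨h1, h2, h3⟩
  · intro h i
    rw [Formula.realize_imp, Formula.realize_inf, Formula.realize_inf, Formula.realize_sup,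
      Formula.realize_sup, Formula.realize_not, Formula.realize_not, Formula.realize_equal,
      realize_lf, realize_lf, realize_lf, realize_lf, key]
    rintro ⟨h1, h2, h3⟩
    exact h (i 0) (i 1) h1 h2 h3

end formulas

/-- the order of an o-minimal structure -/
@[reducible] noncomputable def lo {N : Type u} [L.Structure N] (h : OMinStr lt N) :
    LinearOrder N := by
  classical
  haveI : IsStrictTotalOrder N (Lt lt N) :=
    { irrefl := h.irrefl
      trans := h.trans
      trichotomous := fun a b => by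
        have := h.total a b
        tauto }
  exact linearOrderOfSTO (Lt lt N)

theorem lo_lt {N : Type u} [L.Structure N] (h : OMinStr lt N) (a b : N) :
    (lo lt h).lt a b ↔ Lt lt N a b := Iff.rfl

theorem lo_dense {N : Type u} [L.Structure N] (h : OMinStr lt N) :
    letI := lo lt h
    DenselyOrdered N := by
  letI := lo lt h
  exact ⟨fun a b hab => h.dense a b hab⟩

theorem lo_max {N : Type u} [L.Structure N] (h : OMinStr lt N) :
    letI := lo lt h
    NoMaxOrder N := by
  letI := lo lt h
  exact ⟨fun a => h.no_max a⟩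

theorem lo_min {N : Type u} [L.Structure N] (h : OMinStr lt N) :
    letI := lo lt h
    NoMinOrder N := by
  letI := lo lt h
  exact ⟨fun a => h.no_min a⟩

end Pool.Agent.KS6_90.CFO
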