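import Pool.Agent.KS6_90.CFO.A

/-!
The shrinking lemma.
-/

set_option autoImplicit false

namespace Pool.Agent.KS6_90.CFO

open FirstOrder FirstOrder.Language FirstOrder.Language.Structure Cardinal Pool.Agent.R466.OM

universe u w

variable {L : FirstOrder.Language.{0, 0}} (lt : L.Relations 2) (add : L.Functions 2)

/-- the term `s + t` -/
def ta {α : Type w} (s t : L.Term α) : L.Term α := add.apply₂ s t

theorem realize_ta {α : Type w} {N : Type u} [L.Structure N] (s t : L.Term α) (e : α → N) :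
    (ta add s t).realize e = ad add N (s.realize e) (t.realize e) :=
  Term.realize_functions_apply₂

section group

variable {lt add} {N : Type u} [L.Structure N]

/-- the neutral element -/
def IsZ (add : L.Functions 2) (z : N) : Prop := ∀ x, ad add N z x = x ∧ ad add N x z = x ∧
    ∃ y, ad add N x y = z ∧ ad add N y x = z

theorem diff (hg : OrdGroup lt add N) {z : N} (hz : IsZ add z) {x y : N} (h : Lt lt N x y) :
    ∃ δ, Lt lt N z δ ∧ ∀ δ', Lt lt N δ' δ → Lt lt N (ad add N x δ') y := by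
  obtain ⟨x', h1, h2⟩ := (hz x).2.2
  refine ⟨ad add N x' y, ?_, fun δ' hδ' => ?_⟩
  · have := (hg.mono x y x' h).2
    rwa [h2] at this
  · have := (hg.mono δ' _ x hδ').2
    rwa [← hg.assoc, h1, (hz y).1] at this

theorem pos (hg : OrdGroup lt add N) {z : N} (hz : IsZ add z) {δ : N} (h : Lt lt N z δ) (x : N) :
    Lt lt N x (ad add N x δ) := by
  have := (hg.mono z δ x h).2
  rwa [(hz x).2.1] at this

theorem z_unique (hg : OrdGroup lt add N) {z w : N} (hz : IsZ add z) (h : ad add N w w = w) :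
    w = z := by
  obtain ⟨w', h1, h2⟩ := (hz w).2.2
  have : ad add N (ad add N w' w) w = ad add N w' w := by rw [hg.assoc, h]
  rwa [h2, (hz w).1] at this

end group

theorem def_univ {U : Type u} [L.Structure U] (φ : L.Formula (U ⊕ Fin 1)) :
    (Set.univ : Set U).Definable₁ L {x | φ.Realize (Sum.elim id (fun _ => x))} := by
  refine Set.definable_iff_exists_formula_sum.2
    ⟨φ.relabel (Sum.map (fun u => ⟨u, trivial⟩) id), ?_⟩
  ext v
  rw [Set.mem_ofPred_eq, Set.mem_ofPred_eq, Set.mem_ofPred_eq, Formula.realize_relabel]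
  apply iff_of_eq
  congr 1
  funext j
  rcases j with j | j
  · rfl
  · have : j = 0 := Subsingleton.elim _ _
    rw [this]; rfl

/-- the points of `(a, b)` which are moved by more than `ε` -/
noncomputable def Mv {U : Type u} {α : Type w} (e : α → U)
    (ψ : L.Formula (α ⊕ Fin 2)) (a b ε : U) : L.Formula (U ⊕ Fin 1) :=
  (lf lt (Term.var (Sum.inl a)) (Term.var (Sum.inr 0)) ⊓
    lf lt (Term.var (Sum.inr 0)) (Term.var (Sum.inl b))) ⊓
  (((((Gf ψ).relabel (Sum.elim (fun p => Sum.inl (Sum.inl (e p)))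
    ![Sum.inl (Sum.inr 0), Sum.inr 0])) ⊓
    ((lf lt (ta add (Term.var (Sum.inl (Sum.inr 0))) (Term.var (Sum.inl (Sum.inl ε))))
      (Term.var (Sum.inr 0))) ⊔
    (lf lt (ta add (Term.var (Sum.inr 0)) (Term.var (Sum.inl (Sum.inl ε))))
      (Term.var (Sum.inl (Sum.inr 0)))))) : L.Formula ((U ⊕ Fin 1) ⊕ Fin 1)).iExs (Fin 1))

theorem realize_Mv {U : Type u} [L.Structure U] {α : Type w} (e : α → U)
    (ψ : L.Formula (α ⊕ Fin 2)) (a b ε x : U) :
    (Mv lt add e ψ a b ε).Realize (Sum.elim id (fun _ => x)) ↔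
      (Lt lt U a x ∧ Lt lt U x b) ∧ ∃ y, Gr e ψ x y ∧
        (Lt lt U (ad add U x ε) y ∨ Lt lt U (ad add U y ε) x) := by
  rw [Mv, Formula.realize_inf, Formula.realize_iExs, Formula.realize_inf, realize_lf, realize_lf]
  refine and_congr Iff.rfl ?_
  have key : ∀ i : Fin 1 → U, ((Gf ψ).relabel (Sum.elim (fun p => Sum.inl (Sum.inl (e p)))
      ![Sum.inl (Sum.inr 0), Sum.inr 0]) : L.Formula ((U ⊕ Fin 1) ⊕ Fin 1)).Realize
        (Sum.elim (Sum.elim id (fun _ => x)) i) ↔ Gr e ψ x (i 0) := by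
    intro i
    have h2 := realize_Gf e ψ ![x, i 0]
    refine Iff.trans ?_ h2
    rw [Formula.realize_relabel]
    apply iff_of_eq
    congr 1
    funext j
    rcases j with j | j
    · rfl
    · fin_cases j <;> rfl
  constructor
  · rintro ⟨i, hi⟩
    rw [Formula.realize_inf, Formula.realize_sup, realize_lf, realize_lf, realize_ta, realize_ta,
      key] at hi
    exact ⟨i 0, hi⟩
  · rintro ⟨y, hy⟩
    refine ⟨fun _ => y, ?_⟩
    rw [Formula.realize_inf, Formula.realize_sup, realize_lf, realize_lf, realize_ta, realize_ta,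
      key]
    exact hy

theorem def_S {U : Type u} [L.Structure U] (A : Set U) {x y : U} (hx : x ∈ A) (hy : y ∈ A) :
    A.Definable₁ L {δ | Lt lt U (ad add U x δ) y ∨ Lt lt U (ad add U y δ) x} := by
  refine Set.definable_iff_exists_formula_sum.2
    ⟨lf lt (ta add (Term.var (Sum.inl ⟨x, hx⟩)) (Term.var (Sum.inr 0)))
        (Term.var (Sum.inl ⟨y, hy⟩)) ⊔
      lf lt (ta add (Term.var (Sum.inl ⟨y, hy⟩)) (Term.var (Sum.inr 0)))
        (Term.var (Sum.inl ⟨x, hx⟩)), ?_⟩
  ext v
  rw [Set.mem_ofPred_eq, Set.mem_ofPred_eq, Set.mem_ofPred_eq, Formula.realize_sup, realize_lf,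
    realize_lf, realize_ta, realize_ta]
  rfl

theorem def_I {U : Type u} [L.Structure U] (A : Set U) {x : U} (hx : x ∈ A) :
    A.Definable₁ L {δ | Lt lt U x δ} := by
  refine Set.definable_iff_exists_formula_sum.2
    ⟨lf lt (Term.var (Sum.inl ⟨x, hx⟩)) (Term.var (Sum.inr 0)), ?_⟩
  ext v
  rw [Set.mem_ofPred_eq, Set.mem_ofPred_eq, Set.mem_ofPred_eq, realize_lf]
  rfl

open Classical in
/-- an element smaller than all the moves at countably many points -/
theorem small_move {κ : Cardinal.{u}} (hκ : ℵ₀ < κ) {U : Type u} [L.Structure U]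
    (hU : Saturated L κ U) (ho : OMinStr lt U) (hg : OrdGroup lt add U) {z : U} (hz : IsZ add z)
    (x y : ℕ → U) (hxy : ∀ i, y i ≠ x i) :
    ∃ ε, Lt lt U z ε ∧ ∀ i, Lt lt U (ad add U (x i) ε) (y i) ∨ Lt lt U (ad add U (y i) ε) (x i) := by
  letI := lo lt ho
  haveI := lo_dense lt ho
  haveI := lo_min lt ho
  haveI := lo_max lt ho
  haveI : Nonempty U := ⟨z⟩
  have hδ : ∀ i, ∃ δ, z < δ ∧ ∀ δ', δ' < δ →
      (Lt lt U (ad add U (x i) δ') (y i) ∨ Lt lt U (ad add U (y i) δ') (x i)) := by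
    intro i
    rcases ho.total (x i) (y i) with h | h | h
    · obtain ⟨δ, h1, h2⟩ := diff hg hz h
      exact ⟨δ, h1, fun δ' h' => Or.inl (h2 δ' h')⟩
    · exact absurd h.symm (hxy i)
    · obtain ⟨δ, h1, h2⟩ := diff hg hz h
      exact ⟨δ, h1, fun δ' h' => Or.inr (h2 δ' h')⟩
  choose δ hδ1 hδ2 using hδ
  set A : Set U := {z} ∪ (Set.range x ∪ Set.range y) with hA
  have hAc : A.Countable := (Set.countable_singleton z).union
    ((Set.countable_range x).union (Set.countable_range y))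
  have hcard : #A < κ := lt_of_le_of_lt (Cardinal.le_aleph0_iff_set_countable.2 hAc) hκ
  set S : ℕ → Set U := fun i => {ε | Lt lt U (ad add U (x i) ε) (y i) ∨
    Lt lt U (ad add U (y i) ε) (x i)} with hS
  obtain ⟨ε, hε⟩ := hU A hcard ({{ε | Lt lt U z ε}} ∪ Set.range S) (by
    rintro X (hX | ⟨i, rfl⟩)
    · rw [Set.mem_singleton_iff.1 hX]
      exact def_I lt A (Or.inl rfl)
    · exact def_S lt add A (Or.inr (Or.inl ⟨i, rfl⟩)) (Or.inr (Or.inr ⟨i, rfl⟩))) (by
    intro G hG
    have hg' : ∀ X ∈ G, ∃ i, X = {ε | Lt lt U z ε} ∨ X = S i := by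
      intro X hX
      rcases hG hX with h | ⟨i, rfl⟩
      · exact ⟨0, Or.inl (Set.mem_singleton_iff.1 h)⟩
      · exact ⟨i, Or.inr rfl⟩
    choose! g hg' using hg'
    obtain ⟨ε, h1, h2⟩ := Order.exists_between_finsets {z} (G.image fun X => δ (g X)) (by
      intro a ha b hb
      rw [Finset.mem_singleton.1 ha]
      obtain ⟨X, _, rfl⟩ := Finset.mem_image.1 hb
      exact hδ1 _)
    refine ⟨ε, fun X hX => ?_⟩
    rcases hg' X hX with h | h
    · rw [h]
      exact h1 z (Finset.mem_singleton_self z)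
    · rw [h]
      exact hδ2 _ _ (h2 _ (Finset.mem_image_of_mem _ hX)))
  exact ⟨ε, hε _ (Or.inl rfl), fun i => hε (S i) (Or.inr ⟨i, rfl⟩)⟩

open Classical in
theorem shrink {κ : Cardinal.{u}} (hκ : ℵ₀ < κ) {U : Type u} [L.Structure U]
    (hU : Saturated L κ U) (ho : OMinStr lt U) (hg : OrdGroup lt add U) {α : Type w} (e : α → U)
    (ψ : L.Formula (α ⊕ Fin 2)) (a b : U) (hab : Lt lt U a b) :
    ∃ v : Fin 2 → U, (Lt lt U a (v 0) ∧ Lt lt U (v 0) (v 1) ∧ Lt lt U (v 1) b) ∧
      Off lt e ψ (v 0) (v 1) := by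
  letI := lo lt ho
  haveI := lo_dense lt ho
  haveI := lo_min lt ho
  haveI := lo_max lt ho
  obtain ⟨z, hz⟩ := hg.neutral
  haveI : Nonempty U := ⟨z⟩
  set D : Set U := {x | a < x ∧ x < b ∧ ∃ y, Gr e ψ x y ∧ y ≠ x} with hD
  rcases D.finite_or_infinite with hf | hi
  · obtain ⟨b', h1, h2⟩ := Order.exists_between_finsets {a} (insert b hf.toFinset) (by
      intro p hp q hq
      rw [Finset.mem_singleton.1 hp]
      rcases Finset.mem_insert.1 hq with rfl | hq
      · exact hab
      · exact ((hf.mem_toFinset).1 hq).1)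
    have h1 : a < b' := h1 a (Finset.mem_singleton_self a)
    have h3 : b' < b := h2 b (Finset.mem_insert_self _ _)
    obtain ⟨a', h4, h5⟩ := exists_between h1
    refine ⟨![a', b'], ⟨h4, h5, h3⟩, fun x y hx1 hx2 hxy => ?_⟩
    by_contra hcon
    push Not at hcon
    have hxD : x ∈ D := ⟨lt_trans h4 hx1, lt_trans hx2 h3, y, hxy, hcon.1⟩
    exact absurd (h2 x (Finset.mem_insert_of_mem ((hf.mem_toFinset).2 hxD)))
      (not_lt_of_gt hx2)
  · set x : ℕ → U := fun i => (hi.natEmbedding D i : U) with hx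
    have hxinj : Function.Injective x := fun i j h =>
      (hi.natEmbedding D).injective (Subtype.ext h)
    have hxD : ∀ i, x i ∈ D := fun i => (hi.natEmbedding D i).2
    have hy : ∀ i, ∃ y, Gr e ψ (x i) y ∧ y ≠ x i := fun i => (hxD i).2.2
    choose y hy1 hy2 using hy
    obtain ⟨ε, hε, hmv⟩ := small_move lt add hκ hU ho hg hz x y hy2
    set N : Set U := {x | (Mv lt add e ψ a b ε).Realize (Sum.elim id (fun _ => x))} with hN
    have hxN : ∀ i, x i ∈ N := fun i => (realize_Mv lt add e ψ a b ε (x i)).2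
      ⟨⟨(hxD i).1, (hxD i).2.1⟩, y i, hy1 i, hmv i⟩
    obtain ⟨G, hGf, hG, hNG⟩ := ho.omin N (def_univ _)
    have hNinf : N.Infinite := (Set.infinite_range_of_injective hxinj).mono
      (Set.range_subset_iff.2 hxN)
    have hX : ∃ X ∈ G, ¬ X.Subsingleton := by
      by_contra hcon
      push Not at hcon
      apply hNinf
      rw [hNG]
      exact hGf.sUnion fun X hX => (hcon X hX).finite
    obtain ⟨X, hXG, hXs⟩ := hX
    have hXN : X ⊆ N := by
      rw [hNG]
      exact Set.subset_sUnion_of_mem hXG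
    rcases hG X hXG with ⟨p, hp⟩ | ⟨c, d, hcd⟩
    · exact absurd (hp ▸ Set.subsingleton_singleton) hXs
    · have hconv : ∀ p ∈ X, ∀ q ∈ X, ∀ r, p < r → r < q → r ∈ X := by
        rw [hcd]
        intro p hp q hq r hpr hrq
        exact ⟨fun c' hc' => ho.trans _ _ _ (hp.1 c' hc') hpr,
          fun d' hd' => ho.trans _ _ _ hrq (hq.2 d' hd')⟩
      obtain ⟨p, hp, q, hq, hpq⟩ : ∃ p ∈ X, ∃ q ∈ X, p < q := by
        rw [Set.not_subsingleton_iff] at hXs
        obtain ⟨p, hp, q, hq, hne⟩ := hXs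
        rcases lt_or_gt_of_ne hne with h | h
        · exact ⟨p, hp, q, hq, h⟩
        · exact ⟨q, hq, p, hp, h⟩
      have hpε : p < ad add U p ε := pos hg hz hε p
      obtain ⟨r, hr1, hr2⟩ := Order.exists_between_finsets {p} {q, ad add U p ε} (by
        intro s hs t ht
        rw [Finset.mem_singleton.1 hs]
        rcases Finset.mem_insert.1 ht with rfl | ht
        · exact hpq
        · rw [Finset.mem_singleton.1 ht]
          exact hpε)
      have hr1 : p < r := hr1 p (Finset.mem_singleton_self p)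
      have hr3 : r < q := hr2 q (Finset.mem_insert_self _ _)
      have hr4 : r < ad add U p ε := hr2 _ (Finset.mem_insert_of_mem (Finset.mem_singleton_self _))
      have hpN := (realize_Mv lt add e ψ a b ε p).1 (hXN hp)
      have hqN := (realize_Mv lt add e ψ a b ε q).1 (hXN hq)
      refine ⟨![p, r], ⟨hpN.1.1, hr1, lt_trans hr3 hqN.1.2⟩, fun x' y' hx1 hx2 hxy => ?_⟩
      have hx'X : x' ∈ X := hconv p hp q hq x' hx1 (lt_trans hx2 hr3)
      obtain ⟨_, y0, hy0, hmv0⟩ := (realize_Mv lt add e ψ a b ε x').1 (hXN hx'X)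
      have hyy : y' = y0 := hy0.2 y' hxy.1
      rw [hyy]
      right
      have hx1 : p < x' := hx1
      have hx2 : x' < r := hx2
      rcases hmv0 with h | h
      · right
        have h1 : ad add U p ε < ad add U x' ε := (hg.mono p x' ε hx1).1
        have h2 : ad add U x' ε < y0 := h
        exact not_lt_of_gt (lt_trans hr4 (lt_trans h1 h2))
      · left
        intro h3
        have h1 : ad add U p ε < ad add U y0 ε := (hg.mono p y0 ε h3).1
        have h2 : ad add U y0 ε < x' := h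
        exact absurd (lt_trans h1 (lt_trans h2 hx2)) (not_lt_of_gt hr4)

end Pool.Agent.KS6_90.CFO
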