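import Pool.Agent.KS6_90.CFO.B

/-!
The cut, and the main theorem.
-/

set_option autoImplicit false

namespace Pool.Agent.KS6_90.CFO

open FirstOrder FirstOrder.Language FirstOrder.Language.Structure Cardinal Pool.Agent.R466.OM

universe u w

variable {L : FirstOrder.Language.{0, 0}} (lt : L.Relations 2) (add : L.Functions 2)

theorem step {κ : Cardinal.{u}} (hκ : ℵ₀ < κ) {U : Type u} [L.Structure U]
    (hU : Saturated L κ U) (ho : OMinStr lt U) (hg : OrdGroup lt add U)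
    (M : L.ElementarySubstructure U) (ψ : L.Formula (M ⊕ Fin 2)) (a b : M)
    (hab : Lt lt U (a : U) (b : U)) :
    ∃ a' b' : M, (Lt lt U (a : U) (a' : U) ∧ Lt lt U (a' : U) (b' : U) ∧
      Lt lt U (b' : U) (b : U)) ∧
      ∀ (V : Type u) [L.Structure V] (ι : U ↪ₑ[L] V),
        Off lt (fun m : M => ι (m : U)) ψ (ι (a' : U)) (ι (b' : U)) := by
  obtain ⟨v, hv⟩ := shrink lt add hκ hU ho hg (fun m : M => (m : U)) ψ a b hab
  have h1 : (Xi lt ψ a b).Realize (Sum.elim (fun m : M => (m : U)) v) :=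
    (realize_Xi lt _ ψ a b v).2 hv
  have h2 : ((Xi lt ψ a b).iExs (Fin 2)).Realize (fun m : M => (m : U)) :=
    Formula.realize_iExs.2 ⟨v, h1⟩
  have h3 : ((Xi lt ψ a b).iExs (Fin 2)).Realize (id : M → M) :=
    (M.subtype.map_formula _ id).1 h2
  obtain ⟨w, hw⟩ := Formula.realize_iExs.1 h3
  have h4 : ∀ (V : Type u) [L.Structure V] (ι : U ↪ₑ[L] V),
      (Xi lt ψ a b).Realize (Sum.elim (fun m : M => ι (m : U)) (fun i => ι (w i : U))) := by
    intro V _ ι
    have h5 := ((ι.comp M.subtype).map_formula (Xi lt ψ a b) (Sum.elim id w)).2 hw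
    convert h5 using 1
    funext j
    rcases j with j | j <;> rfl
  have h6 := (realize_Xi lt (fun m : M => (m : U)) ψ a b (fun i => (w i : U))).1
    (h4 U (ElementaryEmbedding.refl L U))
  exact ⟨w 0, w 1, h6.1, fun V _ ι => ((realize_Xi lt _ ψ a b _).1 (h4 V ι)).2⟩

theorem seq {κ : Cardinal.{u}} (hκ : ℵ₀ < κ) {U : Type u} [L.Structure U]
    (hU : Saturated L κ U) (ho : OMinStr lt U) (hg : OrdGroup lt add U)
    (M : L.ElementarySubstructure U) (hc : Countable (L.Formula (M ⊕ Fin 2)))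
    (hM : ∃ a b : M, Lt lt U (a : U) (b : U)) :
    ∃ a b : ℕ → M, (∀ n, Lt lt U (a n : U) (a (n + 1) : U)) ∧
      (∀ n, Lt lt U (b (n + 1) : U) (b n : U)) ∧ (∀ n, Lt lt U (a n : U) (b n : U)) ∧
      ∀ ψ : L.Formula (M ⊕ Fin 2), ∃ n, ∀ (V : Type u) [L.Structure V] (ι : U ↪ₑ[L] V),
        Off lt (fun m : M => ι (m : U)) ψ (ι (a n : U)) (ι (b n : U)) := by
  haveI : Nonempty (L.Formula (M ⊕ Fin 2)) := ⟨⊥⟩
  obtain ⟨en, hen⟩ := exists_surjective_nat (L.Formula (M ⊕ Fin 2))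
  have hst : ∀ (ψ : L.Formula (M ⊕ Fin 2)) (p : {p : M × M // Lt lt U (p.1 : U) (p.2 : U)}),
      ∃ q : {p : M × M // Lt lt U (p.1 : U) (p.2 : U)}, Lt lt U (p.1.1 : U) (q.1.1 : U) ∧
        Lt lt U (q.1.2 : U) (p.1.2 : U) ∧ ∀ (V : Type u) [L.Structure V] (ι : U ↪ₑ[L] V),
        Off lt (fun m : M => ι (m : U)) ψ (ι (q.1.1 : U)) (ι (q.1.2 : U)) := by
    intro ψ p
    obtain ⟨a', b', h1, h2⟩ := step lt add hκ hU ho hg M ψ p.1.1 p.1.2 p.2
    exact ⟨⟨(a', b'), h1.2.1⟩, h1.1, h1.2.2, h2⟩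
  choose f hf1 hf2 hf3 using hst
  obtain ⟨a0, b0, hab0⟩ := hM
  let s : ℕ → {p : M × M // Lt lt U (p.1 : U) (p.2 : U)} := fun n =>
    Nat.rec ⟨(a0, b0), hab0⟩ (fun n p => f (en n) p) n
  refine ⟨fun n => (s n).1.1, fun n => (s n).1.2, fun n => hf1 (en n) (s n),
    fun n => hf2 (en n) (s n), fun n => (s n).2, fun ψ => ?_⟩
  obtain ⟨n, rfl⟩ := hen ψ
  exact ⟨n + 1, fun V _ ι => hf3 (en n) (s n) V ι⟩

theorem dicho {U : Type u} [L.Structure U] (ho : OMinStr lt U) (Low : Set U) (b : ℕ → U)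
    (hne : Low.Nonempty) (hb : ∀ n, Lt lt U (b (n + 1)) (b n))
    (hnl : ∀ u, u ∉ Low → ∃ n, b n = u ∨ Lt lt U (b n) u) (S : Set U)
    (hS : (Set.univ : Set U).Definable₁ L S) :
    (∃ l ∈ Low, ∃ n, ∀ x, Lt lt U l x → Lt lt U x (b n) → x ∈ S) ∨
      (∃ l ∈ Low, ∃ n, ∀ x, Lt lt U l x → Lt lt U x (b n) → x ∉ S) := by
  letI := lo lt ho
  have hanti : Antitone b := antitone_nat_of_succ_le fun n => le_of_lt (hb n)
  obtain ⟨l0, hl0⟩ := hne
  let F : Filter U :=
    { sets := {s | ∃ l ∈ Low, ∃ n, ∀ x, l < x → x < b n → x ∈ s}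
      univ_sets := ⟨l0, hl0, 0, fun _ _ _ => trivial⟩
      sets_of_superset := by
        rintro s t ⟨l, hl, n, h⟩ hst
        exact ⟨l, hl, n, fun x h1 h2 => hst (h x h1 h2)⟩
      inter_sets := by
        rintro s t ⟨l, hl, n, h⟩ ⟨l', hl', n', h'⟩
        refine ⟨max l l', ?_, max n n', fun x h1 h2 => ⟨h x ?_ ?_, h' x ?_ ?_⟩⟩
        · rcases max_choice l l' with e | e <;> rw [e] <;> assumption
        · exact lt_of_le_of_lt (le_max_left _ _) h1
        · exact lt_of_lt_of_le h2 (hanti (le_max_left _ _))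
        · exact lt_of_le_of_lt (le_max_right _ _) h1
        · exact lt_of_lt_of_le h2 (hanti (le_max_right _ _)) }
  have hle : ∀ c, c ∉ Low → ∃ n, b n ≤ c := fun c hc => by
    obtain ⟨n, h | h⟩ := hnl c hc
    · exact ⟨n, le_of_eq h⟩
    · exact ⟨n, le_of_lt h⟩
  have hIoi : ∀ c, Set.Ioi c ∈ F ∨ (Set.Ioi c)ᶜ ∈ F := by
    intro c
    by_cases hc : c ∈ Low
    · exact Or.inl ⟨c, hc, 0, fun x h _ => h⟩
    · obtain ⟨n, hn⟩ := hle c hc
      exact Or.inr ⟨l0, hl0, n, fun x _ h => not_lt_of_ge (le_of_lt (lt_of_lt_of_le h hn))⟩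
  have hIio : ∀ c, Set.Iio c ∈ F ∨ (Set.Iio c)ᶜ ∈ F := by
    intro c
    by_cases hc : c ∈ Low
    · exact Or.inr ⟨c, hc, 0, fun x h _ => not_lt_of_gt h⟩
    · obtain ⟨n, hn⟩ := hle c hc
      exact Or.inl ⟨l0, hl0, n, fun x _ h => lt_of_lt_of_le h hn⟩
  have hA : ∀ a : Option U, {x | ∀ c, a = some c → Lt lt U c x} ∈ F ∨
      {x | ∀ c, a = some c → Lt lt U c x}ᶜ ∈ F := by
    rintro (_ | c)
    · left
      refine Filter.mem_of_superset Filter.univ_mem fun x _ c hc => ?_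
      simp at hc
    · have e : {x | ∀ c', some c = some c' → Lt lt U c' x} = Set.Ioi c := by
        ext x
        constructor
        · intro h
          exact h c rfl
        · rintro h c' hc'
          rw [← Option.some.inj hc']
          exact h
      rw [e]
      exact hIoi c
  have hB : ∀ a : Option U, {x | ∀ c, a = some c → Lt lt U x c} ∈ F ∨
      {x | ∀ c, a = some c → Lt lt U x c}ᶜ ∈ F := by
    rintro (_ | c)
    · left
      refine Filter.mem_of_superset Filter.univ_mem fun x _ c hc => ?_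
      simp at hc
    · have e : {x | ∀ c', some c = some c' → Lt lt U x c'} = Set.Iio c := by
        ext x
        constructor
        · intro h
          exact h c rfl
        · rintro h c' hc'
          rw [← Option.some.inj hc']
          exact h
      rw [e]
      exact hIio c
  have hbasic : ∀ X : Set U, ((∃ a, X = {a}) ∨ ∃ a b : Option U, X = OpenInt lt U a b) →
      X ∈ F ∨ Xᶜ ∈ F := by
    rintro X (⟨a, rfl⟩ | ⟨a, b', rfl⟩)
    · right
      by_cases hc : a ∈ Low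
      · exact ⟨a, hc, 0, fun x h _ hx => absurd h (by rw [Set.mem_singleton_iff.1 hx]; exact lt_irrefl _)⟩
      · obtain ⟨n, hn⟩ := hle a hc
        exact ⟨l0, hl0, n, fun x _ h hx => absurd (lt_of_lt_of_le h hn)
          (by rw [Set.mem_singleton_iff.1 hx]; exact lt_irrefl _)⟩
    · have e : OpenInt lt U a b' = {x | ∀ c, a = some c → Lt lt U c x} ∩
          {x | ∀ c, b' = some c → Lt lt U x c} := rfl
      rw [e]
      rcases hA a with h1 | h1
      · rcases hB b' with h2 | h2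
        · exact Or.inl (Filter.inter_mem h1 h2)
        · exact Or.inr (Filter.mem_of_superset h2
            (Set.compl_subset_compl.2 Set.inter_subset_right))
      · exact Or.inr (Filter.mem_of_superset h1 (Set.compl_subset_compl.2 Set.inter_subset_left))
  obtain ⟨G, hGf, hG, hSG⟩ := ho.omin S hS
  have hfin : S ∈ F ∨ Sᶜ ∈ F := by
    by_cases h : ∃ X ∈ G, X ∈ F
    · obtain ⟨X, hX, hXF⟩ := h
      left
      rw [hSG]
      exact Filter.mem_of_superset hXF (Set.subset_sUnion_of_mem hX)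
    · push Not at h
      right
      have h2 : (⋂ X ∈ G, Xᶜ) ∈ F :=
        (Filter.biInter_mem hGf).2 fun X hX => (hbasic X (hG X hX)).resolve_left (h X hX)
      refine Filter.mem_of_superset h2 fun x hx hxS => ?_
      rw [hSG] at hxS
      obtain ⟨X, hX, hxX⟩ := hxS
      exact (Set.mem_iInter₂.1 hx X hX) hxX
  exact hfin

end Pool.Agent.KS6_90.CFO
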