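import Pool.Agent.KS6_90.CFO.C

/-!
The main theorem.
-/

set_option autoImplicit false

namespace Pool.Agent.KS6_90.CFO

open FirstOrder FirstOrder.Language FirstOrder.Language.Structure Cardinal Pool.Agent.R466.OM

universe u w

variable {L : FirstOrder.Language.{0, 0}} (lt : L.Relations 2) (add : L.Functions 2)

theorem emb_lt {U V : Type u} [L.Structure U] [L.Structure V] (ι : U ↪ₑ[L] V) (x y : U) :
    Lt lt V (ι x) (ι y) ↔ Lt lt U x y := by
  have h := ι.map_rel lt ![x, y]
  have e : ι ∘ ![x, y] = ![ι x, ι y] := by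
    funext i; fin_cases i <;> rfl
  rw [e] at h
  exact h

theorem emb_ad {U V : Type u} [L.Structure U] [L.Structure V] (ι : U ↪ₑ[L] V) (x y : U) :
    ι (ad add U x y) = ad add V (ι x) (ι y) := by
  have h := ι.map_fun add ![x, y]
  have e : ι ∘ ![x, y] = ![ι x, ι y] := by
    funext i; fin_cases i <;> rfl
  rw [e] at h
  exact h

/-- transfer of a statement about an interval -/
theorem transfer {U V : Type u} [L.Structure U] [L.Structure V] (ι : U ↪ₑ[L] V)
    (φ : L.Formula (U ⊕ Fin 1)) (l r : U)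
    (h : ∀ x, Lt lt U l x → Lt lt U x r → φ.Realize (Sum.elim id (fun _ => x))) (c : V)
    (h1 : Lt lt V (ι l) c) (h2 : Lt lt V c (ι r)) : φ.Realize (Sum.elim ι (fun _ => c)) := by
  set χ : L.Formula (U ⊕ Fin 1) := (lf lt (Term.var (Sum.inl l)) (Term.var (Sum.inr 0)) ⊓
    lf lt (Term.var (Sum.inr 0)) (Term.var (Sum.inl r))).imp φ with hχ
  have h3 : (χ.iAlls (Fin 1)).Realize (id : U → U) := by
    rw [Formula.realize_iAlls]
    intro i
    have e : (fun a => Sum.elim (id : U → U) i a) = Sum.elim id (fun _ : Fin 1 => i 0) := by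
      funext a
      rcases a with a | a
      · rfl
      · have : a = 0 := Subsingleton.elim _ _
        rw [this]; rfl
    rw [e, hχ, Formula.realize_imp, Formula.realize_inf, realize_lf, realize_lf]
    rintro ⟨h4, h5⟩
    exact h _ h4 h5
  have h4 := (ι.map_formula (χ.iAlls (Fin 1)) id).2 h3
  rw [Formula.realize_iAlls] at h4
  have h5 := h4 (fun _ => c)
  rw [hχ, Formula.realize_imp, Formula.realize_inf, realize_lf, realize_lf] at h5
  exact h5 ⟨h1, h2⟩

/-- the type of an element of the cut -/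
theorem char {U V : Type u} [L.Structure U] [L.Structure V] (ho : OMinStr lt U) (ι : U ↪ₑ[L] V)
    (Low : Set U) (b : ℕ → U)
    (hne : Low.Nonempty) (hb : ∀ n, Lt lt U (b (n + 1)) (b n))
    (hnl : ∀ u, u ∉ Low → ∃ n, b n = u ∨ Lt lt U (b n) u) (c : V)
    (h1 : ∀ u ∈ Low, Lt lt V (ι u) c) (h2 : ∀ n, Lt lt V c (ι (b n)))
    (φ : L.Formula (U ⊕ Fin 1)) : φ ∈ tp ι c ↔
      ∃ l ∈ Low, ∃ n, ∀ x, Lt lt U l x → Lt lt U x (b n) →
        φ.Realize (Sum.elim id (fun _ => x)) := by
  have hback : ∀ φ : L.Formula (U ⊕ Fin 1), (∃ l ∈ Low, ∃ n, ∀ x, Lt lt U l x → Lt lt U x (b n) →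
        φ.Realize (Sum.elim id (fun _ => x))) → φ ∈ tp ι c := by
    rintro φ ⟨l, hl, n, h⟩
    exact transfer lt ι φ l (b n) h c (h1 l hl) (h2 n)
  refine ⟨fun h => ?_, hback φ⟩
  rcases dicho lt ho Low b hne hb hnl _ (def_univ φ) with h3 | h3
  · exact h3
  · exfalso
    have h4 : φ.not ∈ tp ι c := hback _ (by
      obtain ⟨l, hl, n, h5⟩ := h3
      exact ⟨l, hl, n, fun x h6 h7 => Formula.realize_not.2 (h5 x h6 h7)⟩)
    exact (Formula.realize_not.1 h4) h

open Classical in
/-- an element of `dcl (M b)` is the value at `b` of a partial function defined over `M` -/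
theorem dcl_graph {U V : Type u} [L.Structure U] [L.Structure V] (ι : U ↪ₑ[L] V)
    (M : L.ElementarySubstructure U) (b e : V) (h : e ∈ dcl L (ι '' (M : Set U) ∪ {b})) :
    ∃ ψ : L.Formula (M ⊕ Fin 2), Gr (fun m : M => ι (m : U)) ψ b e := by
  obtain ⟨φ, hφ⟩ := Set.definable_iff_exists_formula_sum.1 h
  let g : ((ι '' (M : Set U) ∪ {b} : Set V) : Type u) ⊕ Fin 1 → M ⊕ Fin 2 :=
    Sum.elim (fun p => if hp : ∃ m : M, ι (m : U) = p then Sum.inl hp.choose else Sum.inr 0)
      (fun _ => Sum.inr 1)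
  have key : ∀ y : V, (φ.relabel g).Realize (Sum.elim (fun m : M => ι (m : U)) ![b, y]) ↔
      y = e := by
    intro y
    have h1 : (φ.relabel g).Realize (Sum.elim (fun m : M => ι (m : U)) ![b, y]) ↔
        φ.Realize (Sum.elim (fun p : ((ι '' (M : Set U) ∪ {b} : Set V) : Type u) => (p : V))
          (fun _ : Fin 1 => y)) := by
      rw [Formula.realize_relabel]
      apply iff_of_eq
      congr 1
      funext j
      rcases j with p | j
      · by_cases hp : ∃ m : M, ι (m : U) = p
        · have e1 : g (Sum.inl p) = Sum.inl hp.choose := dif_pos hp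
          rw [Function.comp_apply, e1]
          exact hp.choose_spec
        · have e1 : g (Sum.inl p) = Sum.inr 0 := dif_neg hp
          rw [Function.comp_apply, e1]
          rcases p.2 with ⟨m, hm, hmp⟩ | hpb
          · exact absurd ⟨⟨m, hm⟩, hmp⟩ hp
          · exact (Set.mem_singleton_iff.1 hpb).symm
      · rfl
    rw [h1]
    have h2 : (fun _ : Fin 1 => y) ∈ {x : Fin 1 → V | x 0 ∈ ({e} : Set V)} ↔
        (fun _ : Fin 1 => y) ∈ {v : Fin 1 → V | φ.Realize (Sum.elim (fun p => (p : V)) v)} := by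
      rw [hφ]
    exact h2.symm
  exact ⟨φ.relabel g, (key e).2 rfl, fun y' hy' => (key y').1 hy'⟩

theorem countable_formulas (hL : L.card ≤ ℵ₀) (α : Type u) [Countable α] :
    Countable (L.Formula α) := by
  have h : Countable (Σ n, L.BoundedFormula α n) := by
    rw [← Cardinal.mk_le_aleph0_iff]
    refine BoundedFormula.card_le.trans (max_le le_rfl ?_)
    rw [Cardinal.add_le_aleph0]
    exact ⟨by simp, by simpa using hL⟩
  exact Function.Injective.countable (f := fun φ : L.Formula α => (⟨0, φ⟩ :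
    Σ n, L.BoundedFormula α n)) (fun φ ψ h => by simpa using h)

open Classical in
theorem main {T : L.Theory} (hL : L.card ≤ ℵ₀) (hT : OMinimal.{u} lt T)
    (hg : ∀ (N : Type u) [L.Structure N] [Nonempty N], N ⊨ T → OrdGroup lt add N)
    {κ : Cardinal.{u}} (hκ : ℵ₀ < κ) (U : Type u) [L.Structure U] [Nonempty U] (hUT : U ⊨ T)
    (hU : Saturated L κ U) : ¬ CofinalityProperty lt κ U := by
  intro hprop
  have ho := hT.2 U hUT
  have hgU := hg U hUT
  letI := lo lt ho
  haveI := lo_dense lt ho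
  haveI := lo_min lt ho
  haveI := lo_max lt ho
  haveI : Infinite U := NoMaxOrder.infinite
  -- a countable elementary substructure
  obtain ⟨M, -, hMc⟩ := exists_elementarySubstructure_card_eq L (∅ : Set U) (ℵ₀ : Cardinal.{u})
    le_rfl (by simp) (by simpa using hL) (by simp)
  have hMc : #M = ℵ₀ := by simpa using hMc
  haveI : Countable M := Cardinal.mk_le_aleph0_iff.1 hMc.le
  have hMne : Nonempty M := by
    rw [← Cardinal.mk_ne_zero_iff, hMc]
    exact Cardinal.aleph0_ne_zero
  have hMT : M ⊨ T := (M.subtype.theory_model_iff T).2 hUT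
  have hoM := hT.2 M hMT
  obtain ⟨a, b, ha, hb, hab, hoff⟩ := seq lt add hκ hU ho hgU M (countable_formulas hL _) (by
    obtain ⟨x⟩ := hMne
    obtain ⟨y, hy⟩ := hoM.no_max x
    exact ⟨x, y, (emb_lt lt M.subtype x y).2 hy⟩)
  have hbanti : StrictAnti (fun n => (b n : U)) := strictAnti_nat_of_succ_lt hb
  have hamono : StrictMono (fun n => (a n : U)) := strictMono_nat_of_lt_succ ha
  have hablt : ∀ n m, (a n : U) < b m := fun n m =>
    lt_of_le_of_lt (hamono.monotone (le_max_left n m))
      (lt_of_lt_of_le (hab (max n m)) (hbanti.antitone (le_max_right n m)))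
  set Low : Set U := {u | ∀ n, u < b n} with hLow
  have haLow : ∀ n, (a n : U) ∈ Low := fun n m => hablt n m
  have hnl : ∀ u, u ∉ Low → ∃ n, (b n : U) = u ∨ Lt lt U (b n : U) u := by
    intro u hu
    by_contra hcon
    push Not at hcon
    refine hu fun n => ?_
    rcases ho.total u (b n) with h | h | h
    · exact h
    · exact absurd h.symm (hcon n).1
    · exact absurd h (hcon n).2
  have hLne : Low.Nonempty := ⟨a 0, haLow 0⟩
  -- the infinitesimal
  obtain ⟨z, hz⟩ := hgU.neutral
  obtain ⟨ε, hε, hmv⟩ := small_move lt add hκ hU ho hgU hz (fun i => (b (i + 1) : U))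
    (fun i => (b i : U)) (fun i => ne_of_gt (hb i))
  have hbε : ∀ i, Lt lt U (ad add U (b (i + 1)) ε) (b i) := by
    intro i
    rcases hmv i with h | h
    · exact h
    · have h1 : (b i : U) < ad add U (b i) ε := pos hgU hz hε _
      exact absurd (ho.trans _ _ _ (ho.trans _ _ _ h1 h) (hb i)) (ho.irrefl _)
  -- the extension
  obtain ⟨V, iV, ι, c0, hc0⟩ := exists_ext (L := L) U
    ((fun a => {x | Lt lt U a x}) '' Low ∪ Set.range (fun n => {x | Lt lt U x (b n : U)})) (by
      intro G hG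
      have hg' : ∀ S ∈ G, ∃ c : U, (c ∈ Low ∧ S = {x | Lt lt U c x}) ∨
          ((∃ n, c = b n) ∧ S = {x | Lt lt U x c}) := by
        intro S hS
        rcases hG hS with ⟨c, hc, rfl⟩ | ⟨n, rfl⟩
        · exact ⟨c, Or.inl ⟨hc, rfl⟩⟩
        · exact ⟨b n, Or.inr ⟨⟨n, rfl⟩, rfl⟩⟩
      choose! g hg' using hg'
      obtain ⟨x, hx1, hx2⟩ := Order.exists_between_finsets ((G.image g).filter (· ∈ Low))
        ((G.image g).filter (fun c => ∃ n, c = b n)) (by
          intro p hp q hq
          obtain ⟨n, hn⟩ := (Finset.mem_filter.1 hq).2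
          rw [hn]
          exact (Finset.mem_filter.1 hp).2 n)
      refine ⟨x, fun S hS => ?_⟩
      rcases hg' S hS with ⟨h1, h2⟩ | ⟨h1, h2⟩
      · rw [h2]
        exact hx1 _ (Finset.mem_filter.2 ⟨Finset.mem_image_of_mem _ hS, h1⟩)
      · rw [h2]
        exact hx2 _ (Finset.mem_filter.2 ⟨Finset.mem_image_of_mem _ hS, h1⟩))
  have hVT : V ⊨ T := (ι.theory_model_iff T).1 hUT
  haveI hVne : Nonempty V := ⟨c0⟩
  have hoV := hT.2 V hVT
  have hgV := hg V hVT
  have hlow : ∀ u ∈ Low, Lt lt V (ι u) c0 := by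
    intro u hu
    have h := hc0 (lf lt (Term.var (Sum.inl u)) (Term.var (Sum.inr 0))) (Or.inl ⟨u, hu, by
      ext x
      exact (realize_lf lt (N := U) (Term.var (Sum.inl u)) (Term.var (Sum.inr 0))
        (Sum.elim id (fun _ : Fin 1 => x))).symm⟩)
    exact (realize_lf lt _ _ _).1 h
  have hupp : ∀ n, Lt lt V c0 (ι (b n : U)) := by
    intro n
    have h := hc0 (lf lt (Term.var (Sum.inr 0)) (Term.var (Sum.inl (b n : U)))) (Or.inr ⟨n, by
      ext x
      exact (realize_lf lt (N := U) (Term.var (Sum.inr 0)) (Term.var (Sum.inl (b n : U)))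
        (Sum.elim id (fun _ : Fin 1 => x))).symm⟩)
    exact (realize_lf lt _ _ _).1 h
  -- the element c
  set c : V := ad add V c0 (ι ε) with hc
  obtain ⟨zV, hzV⟩ := hgV.neutral
  have hzz : ι z = zV := by
    refine z_unique hgV hzV ?_
    rw [← emb_ad, (hz z).1]
  have hεV : Lt lt V zV (ι ε) := by
    rw [← hzz]
    exact (emb_lt lt ι z ε).2 hε
  have hc0c : Lt lt V c0 c := pos hgV hzV hεV c0
  have hlowc : ∀ u ∈ Low, Lt lt V (ι u) c := fun u hu => hoV.trans _ _ _ (hlow u hu) hc0c
  have huppc : ∀ n, Lt lt V c (ι (b n : U)) := by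
    intro n
    have h1 := (hgV.mono _ _ (ι ε) (hupp (n + 1))).1
    rw [← emb_ad] at h1
    exact hoV.trans _ _ _ h1 ((emb_lt lt ι _ _).2 (hbε n))
  have hchar0 := char lt ho ι Low (fun n => (b n : U)) hLne hb hnl c0 hlow hupp
  have hcharc := char lt ho ι Low (fun n => (b n : U)) hLne hb hnl c hlowc huppc
  have htpc : tp (L := L) ι c = tp (L := L) ι c0 := by
    ext φ
    rw [hchar0, hcharc]
  have hle : ∀ d, leF lt d ∈ tp (L := L) ι c0 ↔ d ∉ Low := by
    intro d
    have h1 : leF lt d ∈ tp (L := L) ι c0 ↔ (Lt lt V c0 (ι d) ∨ c0 = ι d) := by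
      have h2 := (Formula.realize_rel₂ (R := lt) (t₂ := (Term.var (Sum.inl d)))
        (t₁ := (Term.var (Sum.inr 0))) (v := Sum.elim ι (fun _ : Fin 1 => c0)))
      have h3 := (Formula.realize_equal (L := L) (t₂ := (Term.var (Sum.inl d)))
        (t₁ := (Term.var (Sum.inr 0))) (x := Sum.elim ι (fun _ : Fin 1 => c0)))
      exact (Formula.realize_sup).trans (or_congr h2 h3)
    rw [h1]
    constructor
    · rintro (h | h) hd
      · exact hoV.irrefl _ (hoV.trans _ _ _ h (hlow d hd))
      · have := hlow d hd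
        rw [← h] at this
        exact hoV.irrefl _ this
    · intro hd
      obtain ⟨n, h | h⟩ := hnl d hd
      · left
        rw [← h]
        exact hupp n
      · left
        exact hoV.trans _ _ _ (hupp n) ((emb_lt lt ι _ _).2 h)
  obtain ⟨e, hed, hetp, hce⟩ := hprop M (by rw [hMc]; exact hκ)
    (tp (L := L) ι c0) ⟨V, iV, ι, c0, rfl⟩ (by
      intro σ hσ φ
      have hσlt : ∀ x y : U, Lt lt U (σ x) (σ y) ↔ Lt lt U x y :=
        emb_lt lt σ.toElementaryEmbedding
      have hσb : ∀ n, σ (b n : U) = b n := fun n => hσ _ (b n).2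
      have hσlow : ∀ u, σ u ∈ Low ↔ u ∈ Low := by
        intro u
        constructor
        · intro h n
          have := h n
          rw [← hσb n] at this
          exact (hσlt u (b n)).1 this
        · intro h n
          rw [← hσb n]
          exact (hσlt u (b n)).2 (h n)
      have hreal : ∀ x : U, (φ.relabel (Sum.map σ id)).Realize (Sum.elim id (fun _ => σ x)) ↔
          φ.Realize (Sum.elim id (fun _ : Fin 1 => x)) := by
        intro x
        rw [Formula.realize_relabel]
        have h1 := σ.toElementaryEmbedding.map_formula φ (Sum.elim id (fun _ : Fin 1 => x))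
        rw [← h1]
        apply iff_of_eq
        congr 1
        funext j
        rcases j with j | j <;> rfl
      rw [hchar0, hchar0]
      constructor
      · rintro ⟨l, hl, n, h⟩
        refine ⟨σ l, (hσlow l).2 hl, n, fun x h1 h2 => ?_⟩
        obtain ⟨x, rfl⟩ := σ.surjective x
        refine (hreal x).2 (h x ((hσlt _ _).1 h1) ?_)
        rw [← hσb n] at h2
        exact (hσlt _ _).1 h2
      · rintro ⟨l, hl, n, h⟩
        obtain ⟨l, rfl⟩ := σ.surjective l
        refine ⟨l, (hσlow l).1 hl, n, fun x h1 h2 => ?_⟩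
        refine (hreal x).1 (h (σ x) ((hσlt _ _).2 h1) ?_)
        rw [← hσb n]
        exact (hσlt _ _).2 h2)
    (by
      refine ⟨Set.range (fun n => (b n : U)), ?_, ?_, ?_⟩
      · exact lt_of_le_of_lt (Cardinal.le_aleph0_iff_set_countable.2 (Set.countable_range _)) hκ
      · rintro _ ⟨n, rfl⟩
        exact (hle _).2 fun h => lt_irrefl _ (h n)
      · intro d hd
        obtain ⟨n, hn⟩ := hnl d ((hle d).1 hd)
        exact ⟨b n, ⟨n, rfl⟩, hn⟩)
    V iV ι c0 rfl c (by
      refine Set.definable_iff_exists_formula_sum.2 ⟨Term.equal (Term.var (Sum.inr 0))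
        (ta add (Term.var (Sum.inl ⟨c0, Or.inr rfl⟩))
          (Term.var (Sum.inl ⟨ι ε, Or.inl ⟨ε, rfl⟩⟩))), ?_⟩
      ext v
      refine Iff.trans ?_ (Formula.realize_equal).symm
      rw [realize_ta]
      exact Iff.rfl) htpc
  -- the contradiction
  obtain ⟨ψ, hψ⟩ := dcl_graph ι M c0 e hed
  obtain ⟨n, hn⟩ := hoff ψ
  have h1 := hn V ι c0 e (hlow _ (haLow n)) (hupp n) hψ
  have hae : Lt lt V (ι (a n : U)) e := by
    have h2 : lf lt (Term.var (Sum.inl (a n : U))) (Term.var (Sum.inr 0)) ∈ tp (L := L) ι c0 :=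
      (realize_lf lt _ _ _).2 (hlow _ (haLow n))
    rw [← hetp] at h2
    exact (realize_lf lt _ _ _).1 h2
  have heb : Lt lt V e (ι (b n : U)) := by
    have h2 : lf lt (Term.var (Sum.inr 0)) (Term.var (Sum.inl (b n : U))) ∈ tp (L := L) ι c0 :=
      (realize_lf lt _ _ _).2 (hupp n)
    rw [← hetp] at h2
    exact (realize_lf lt _ _ _).1 h2
  have hec : e = c0 := by
    rcases h1 with h | h | h
    · exact h
    · exact absurd hae h
    · exact absurd heb h
  rw [hec] at hce
  rcases hce with h | h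
  · rw [h] at hc0c
    exact hoV.irrefl _ hc0c
  · exact hoV.irrefl _ (hoV.trans _ _ _ h hc0c)

end Pool.Agent.KS6_90.CFO
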